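import Mathlib
import Pool.Agent.IsoRep.Defs
import Pool.Agent.IsoRep.Final

/-!
# Prescribed isotropy representations at fixed points of finite group actions

The answer to Q1 is yes, and the variety can even be taken affine, `X = Spec A`.
-/

set_option autoImplicit false

namespace Pool.Agent.Results.MP_322e80_ag.Realisation

open Pool.Agent.IsoRep.Geom

universe u v w

/-- For every finite group `G`, every finite family of subgroups `H i`, every `d ≥ 1` and every
family of faithful `d`-dimensional complex representations `V i` of `H i` there are an affine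
irreducible complex variety `X = Spec A` of dimension `d` with an action of `G` and pairwise
distinct points `x i`, fixed by `H i`, with `T_{x i} X ≅ V i` as representations of `H i`. -/
theorem result {G : Type u} [Group G] [Finite G] {ι : Type v} [Finite ι] (H : ι → Subgroup G)
    (d : ℕ) (hd : 1 ≤ d) (V : ι → Type w) [∀ i, AddCommGroup (V i)] [∀ i, Module ℂ (V i)]
    (hV : ∀ i, Module.finrank ℂ (V i) = d) (ρ : ∀ i, Representation ℂ (H i) (V i))
    (hρ : ∀ i, Function.Injective (ρ i)) :
    ∃ (A : Type (max u v)) (_ : CommRing A) (_ : Algebra ℂ A) (φ : G →* (A ≃ₐ[ℂ] A))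
      (x : ι → (A →ₐ[ℂ] ℂ)), Realises H d ρ φ x :=
  Pool.Agent.IsoRep.main_realises H d hd V hV ρ hρ

end Pool.Agent.Results.MP_322e80_ag.Realisation
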